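import Pool.Agent.TH145.GF.Lift
import Pool.Agent.W602.GT.Der

/-!
Lifts of derivations that preserve the orders at a divisorial place.
-/

set_option autoImplicit false

open FF Pool.Agent.W603.LV Pool.Agent.TH145.GH Pool.Agent.W602.GT

namespace Pool.Agent.TH145.GF

variable {K L : Type} [Field K] [Field L] [Algebra K L] [CharZero K]

/-- Units with independent residues and a uniformizer form a transcendence basis. -/
theorem basis_of_div {w : ℕ} (hw : 0 < w) (htr : Algebra.trdeg K L = w) (P : Place K L)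
    {u : Fin (w - 1) → L} (hu : ∀ F : MvPolynomial (Fin (w - 1)) K, F ≠ 0 →
      MvPolynomial.aeval u F ≠ 0 ∧ P.ord (MvPolynomial.aeval u F) = 0) {π : L} (hπ0 : π ≠ 0)
    (hπ : P.ord π = 1) :
    IsTranscendenceBasis K (fun o : Option (Fin (w - 1)) => o.elim π u) := by
  have hui : AlgebraicIndependent K u := by
    rw [algebraicIndependent_iff]
    intro F hF
    by_contra h
    exact (hu F h).1 hF
  have h1 : AlgebraicIndependent K (fun o : Option (Fin (w - 1)) => o.elim π u) := by
    rw [hui.option_iff_transcendental]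
    intro h
    have hR : ∀ z : IntermediateField.adjoin K (Set.range u),
        P.Reg (algebraMap (IntermediateField.adjoin K (Set.range u)) L z) := by
      rintro ⟨z, hz⟩
      change P.Reg z
      rw [IntermediateField.mem_adjoin_range_iff] at hz
      obtain ⟨a, b, rfl⟩ := hz
      by_cases ha : a = 0
      · rw [ha, map_zero, zero_div]
        exact P.reg_zero
      by_cases hb : b = 0
      · rw [hb, map_zero, div_zero]
        exact P.reg_zero
      · right
        rw [P.ord_div (hu a ha).1 (hu b hb).1, (hu a ha).2, (hu b hb).2]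
        norm_num
    have h2 : IsAlgebraic (IntermediateField.adjoin K (Set.range u)) π :=
      IntermediateField.isAlgebraic_adjoin_iff.2 h
    have h3 : P.Reg π⁻¹ := P.reg_of_isIntegral hR h2.inv.isIntegral
    rw [P.reg_iff (inv_ne_zero hπ0), P.ord_inv, hπ] at h3
    exact absurd h3 (by norm_num)
  refine h1.isTranscendenceBasis_of_lift_trdeg_le_of_finite ?_
  rw [htr]
  simp only [Cardinal.lift_natCast, Cardinal.mk_fintype, Fintype.card_option, Fintype.card_fin]
  have : w - 1 + 1 = w := by omega
  rw [this]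

/-- The lift of a derivation that preserves the constants. -/
theorem exists_lift {w : ℕ} (hw : 0 < w) (htr : Algebra.trdeg K L = w) {P : Place K L}
    (hP : Divisorial w P) {D : Derivation ℤ L L} (hS : Sem K D) :
    ∃ ξ : Derivation K L L, ∀ f, f ≠ 0 → Ge P (P.ord f) (D f - ξ f) := by
  obtain ⟨u, hu⟩ := hP
  obtain ⟨π, hπ0, hπ⟩ := P.surj
  have hb := basis_of_div hw htr P hu hπ0 hπ
  obtain ⟨ξ, hξ⟩ := exists_der _ hb fun o => D (o.elim π u)
  refine ⟨ξ, fun f hf => ?_⟩
  obtain ⟨D1, hD1⟩ : ∃ D1 : Derivation ℤ L L, ∀ f, D1 f = D f - ξ f :=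
    ⟨D - ξ.restrictScalars ℤ, fun f => by simp⟩
  have hS1 : Sem K D1 := by
    intro c
    obtain ⟨c', hc'⟩ := hS c
    exact ⟨c', by rw [hD1, hc', Derivation.map_algebraMap, sub_zero]⟩
  have h0 : ∀ o : Option (Fin (w - 1)), D1 (o.elim π u) = 0 := fun o => by
    rw [hD1, hξ, sub_self]
  have halg : Algebra.IsAlgebraic (IntermediateField.adjoin K (insert π (Set.range u))) L := by
    have h1 := hb.isAlgebraic_field
    have h2 : Set.range (fun o : Option (Fin (w - 1)) => o.elim π u) =
        insert π (Set.range u) := by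
      ext z
      constructor
      · rintro ⟨(_ | i), rfl⟩
        · exact Or.inl rfl
        · exact Or.inr ⟨i, rfl⟩
      · rintro (rfl | ⟨i, rfl⟩)
        · exact ⟨none, rfl⟩
        · exact ⟨some i, rfl⟩
    rwa [h2] at h1
  have hreg : ∀ g, Ge P 0 g → Ge P 0 (D1 g) := fun g hg =>
    reg_of_kill P u hu hπ halg hS1 (fun i => h0 (some i)) (h0 none) hg
  rw [← hD1]
  obtain ⟨g, hg⟩ : ∃ g, g = f / π ^ P.ord f := ⟨_, rfl⟩
  have hπz : π ^ P.ord f ≠ 0 := zpow_ne_zero _ hπ0
  have h1 : f = π ^ P.ord f * g := by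
    rw [hg, mul_div_cancel₀ _ hπz]
  have h2 : Ge P 0 g := by
    right
    rw [hg, P.ord_div hf hπz, P.ord_zpow, hπ]
    linarith
  have h3 := hreg g h2
  have h00 : D1 π = 0 := h0 none
  have h4 : D1 f = π ^ P.ord f * D1 g := by
    conv_lhs => rw [h1]
    rw [D1.leibniz, Derivation.leibniz_zpow, h00]
    simp
  rw [h4]
  have h5 : Ge P (P.ord f) (π ^ P.ord f) := by
    right
    rw [P.ord_zpow, hπ, mul_one]
  have := h5.mul h3
  rwa [add_zero] at this

end Pool.Agent.TH145.GF
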