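import Pool.Agent.TH145.GF.Vert

/-!
The order of the form at a divisorial place.
-/

set_option autoImplicit false

open MvPolynomial FF Pool.Agent.W603.LV Pool.Agent.W603.PV Pool.Agent.TH145.GH
open Pool.Agent.TH145.GC (Ev dF_sub dF_self ord_prod exists_minor)
open Pool.Agent.TH145.GD (Ti tv St sM sM_mem mon_step sM_zero sM_top single_mem deg_St finite_St)
open Pool.Agent.TH145.GE Pool.Agent.W602.GT

namespace Pool.Agent.TH145.GF

variable {K L : Type} [Field K] [Field L] [Algebra K L] [CharZero K] {n w : ℕ} {A : Type}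
  {c0 : Fin (n + 1)} {F : A → MvPolynomial (Fin (n + 1)) L} {dg : A → ℕ}
  {D : A → (Fin (n + 1) →₀ ℕ) → Derivation ℤ L L} {ε : A → (Fin (n + 1) →₀ ℕ) → ℕ}

theorem ge_log {P : Place K L} {δ : Derivation K L L} (h : DerLog P δ) (f : L) :
    Ge P (P.ord f) (δ f) := by
  by_cases hf : f = 0
  · rw [hf, map_zero]
    exact Ge.zero
  · have h1 : δ f = f * (δ f / f) := by field_simp
    rw [h1]
    have h2 : Ge P (P.ord f) f := Or.inr le_rfl
    have h3 : Ge P 0 (δ f / f) := h f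
    have := h2.mul h3
    rwa [add_zero] at this

open scoped Classical in
/-- The order of the form at a divisorial place. -/
theorem ord_form (hF : ∀ a, (F a).IsHomogeneous (dg a)) (hD : DualE c0 F dg D ε) [Fintype A]
    (hw : 0 < w) (htr : Algebra.trdeg K L = w) {P : Place K L} (hP : Divisorial w P)
    (hS : ∀ a I, Sem K (D a I)) {t : Fin w → L} (ht : IsTranscendenceBasis K t)
    {E : Fin w → Derivation K L L} (hEt : ∀ i j, E i (t j) = if i = j then 1 else 0)
    (hFK : ∀ (δ : Derivation K L L) a u, δ ((F a).coeff u) = 0) {Dd : Fin w → Derivation K L L}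
    (hM : (Matrix.of fun i j => Dd i (t j)).det ≠ 0)
    {x : Fin (n + 1) → L} (he0 : x c0 ≠ 0)
    {b : Finset (Ix (Fin w) n A ⊕ A)} (hb : ∀ i ∈ Vert (Fin w) n A, i ∈ b) (σ : b → Fin (n + 1))
    (hspan : Submodule.span L (Set.range (wv c0 dg D (vE E) x)) ≤
        Submodule.span L (wv c0 dg D (vE E) x '' {o | Sum.inl o ∈ b}))
    (hcard : Module.finrank L (Full c0 dg D (vE E) x) = b.card)
    (hdet : (mx c0 dg D (vE E) x (fun a => Finsupp.single c0 (dg a)) b σ).det ≠ 0)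
    (hG : ∀ a, Sum.inr a ∉ b → eval x (F a) ≠ 0)
    (hDd : ((∀ i, DerReg P (Dd i)) ∧
      ∀ a, Sum.inr a ∉ b → P.ord (eval x (F a)) ≤ dg a * pord P x) ∨ ∀ i, DerLog P (Dd i)) :
    ((∑ i ∈ b, rd i : ℕ) - (∑ a, dg a : ℕ)) * pord P x ≤
      P.ord (Matrix.of fun i j => Dd i (t j)).det +
      P.ord ((mx c0 dg D (vE E) x (fun a => Finsupp.single c0 (dg a)) b σ).det /
        ∏ a, if Sum.inr a ∈ b then x c0 ^ dg a else eval x (F a)) := by
  have hx0 : x ≠ 0 := by
    rintro rfl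
    exact he0 rfl
  obtain ⟨lam, x', hlam, hlamP, hxx, hx', e1, he1⟩ := exists_scaled P hx0
  have hdeg : ∀ a, Finsupp.single e1 (dg a) ∈ St c0 (dg a) := fun a => single_mem _
  have hG1 : ∀ a, eval x (F a) = lam ^ dg a * eval x' (F a) := fun a => by
    rw [hxx, eval_smul_hom (hF a)]
  have hG' : ∀ a, Sum.inr a ∉ b → eval x' (F a) ≠ 0 := fun a ha h0 => by
    apply hG a ha
    rw [hG1, h0, mul_zero]
  obtain ⟨dx, hdx⟩ : ∃ dx, dx = (mx c0 dg D (vE E) x (fun a => Finsupp.single c0 (dg a)) b σ).det :=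
    ⟨_, rfl⟩
  obtain ⟨dx', hdx'⟩ : ∃ dx', dx' = (mx c0 dg D (vE E) x' (fun a => Finsupp.single e1 (dg a)) b σ).det :=
    ⟨_, rfl⟩
  have h1 := det_change he0 σ hspan (fun a => Finsupp.single e1 (dg a)) hdeg
  have h2 := det_lam (c0 := c0) (dg := dg) (D := D) (E := vE E) (x := x') lam (hb _ (Or.inl rfl)) σ
    (fun a => Finsupp.single e1 (dg a))
  rw [← hxx, ← hdx'] at h2
  rw [← hdx, h2] at h1
  have hmon : ∀ a, mon x (Finsupp.single e1 (dg a)) = lam ^ dg a := fun a => by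
    rw [mon_single, hxx, Pi.smul_apply, he1, smul_eq_mul, mul_one]
  simp only [hmon] at h1
  rw [← hdx] at hdet ⊢
  obtain ⟨Z, hZ⟩ : ∃ Z, Z = ∏ a, if Sum.inr a ∈ b then x c0 ^ dg a else eval x (F a) := ⟨_, rfl⟩
  have hZ0 : Z ≠ 0 := by
    rw [hZ]
    refine Finset.prod_ne_zero_iff.2 fun a _ => ?_
    split_ifs with ha
    · exact pow_ne_zero _ he0
    · exact hG a ha
  rw [← hZ]
  -- the main identity
  obtain ⟨Y, hY⟩ : ∃ Y, Y = ∏ a ∈ Finset.univ.filter (fun a => Sum.inr a ∉ b), eval x' (F a) :=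
    ⟨_, rfl⟩
  have hY0 : Y ≠ 0 := by
    rw [hY]
    exact Finset.prod_ne_zero_iff.2 fun a ha => hG' a (Finset.mem_filter.1 ha).2
  have h3 : (∏ a, if Sum.inr a ∈ b then lam ^ dg a / x c0 ^ dg a else 1) * Z =
      lam ^ (∑ a, dg a) * Y := by
    rw [hZ, hY, ← Finset.prod_pow_eq_pow_sum, Finset.prod_filter, ← Finset.prod_mul_distrib,
      ← Finset.prod_mul_distrib]
    refine Finset.prod_congr rfl fun a _ => ?_
    by_cases ha : Sum.inr a ∈ b
    · simp only [ha, if_true, not_true_eq_false, if_false, mul_one]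
      rw [div_mul_cancel₀ _ (pow_ne_zero _ he0)]
    · simp only [ha, if_false, not_false_eq_true, if_true, one_mul]
      exact hG1 a
  have h4 : lam ^ (∑ i ∈ b, rd i) * dx' = dx / Z * (lam ^ (∑ a, dg a) * Y) := by
    rw [h1, ← h3]
    field_simp
  have hlp : ∀ m : ℕ, lam ^ m ≠ 0 := fun m => pow_ne_zero _ hlam
  have hq0 : dx / Z ≠ 0 := div_ne_zero hdet hZ0
  have hdx'0 : dx' ≠ 0 := by
    intro h0
    rw [h0, mul_zero] at h4
    exact mul_ne_zero hq0 (mul_ne_zero (hlp _) hY0) h4.symm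
  have h5 := congrArg P.ord h4
  rw [P.ord_mul (hlp _) hdx'0, P.ord_mul hq0 (mul_ne_zero (hlp _) hY0),
    P.ord_mul (hlp _) hY0, P.ord_pow, P.ord_pow, hlamP] at h5
  have h6 : P.ord Y = ∑ a ∈ Finset.univ.filter (fun a => Sum.inr a ∉ b),
      P.ord (eval x' (F a)) := by
    rw [hY]
    exact ord_prod P _ _ fun a ha => hG' a (Finset.mem_filter.1 ha).2
  have h8 : ∀ a, Sum.inr a ∉ b → P.ord (eval x (F a)) - dg a * pord P x =
      P.ord (eval x' (F a)) := by
    intro a ha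
    rw [hG1, P.ord_mul (hlp _) (hG' a ha), P.ord_pow, hlamP]
    ring
  have h7 := ord_det_local hF hD hw htr hP hS ht hEt hFK hM hx' he1 hb σ (by
    rw [← hcard, hxx, full_scale_eq x' hlam]) (by rw [← hdx']; exact hdx'0) hG'
    (fun i l => by
      rcases hDd with ⟨hreg, -⟩ | hlog
      · exact hreg i _ (hx' l)
      · by_cases hl : x' l = 0
        · rw [hl, map_zero]
          exact Ge.zero
        · exact (ge_log (hlog i) (x' l)).mono ((hx' l).resolve_left hl))
    (fun i a ha hpos => by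
      rcases hDd with ⟨-, hle⟩ | hlog
      · exfalso
        have := hle a ha
        rw [← h8 a ha] at hpos
        linarith
      · exact ge_log (hlog i) _)
  rw [← hdx', ← h6] at h7
  rw [sub_mul]
  linarith

end Pool.Agent.TH145.GF
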