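import Pool.Agent.TH145.GF.Ext

/-!
Regularity of derivations at divisorial places.
-/

set_option autoImplicit false

open FF Pool.Agent.W603.LV Pool.Agent.TH145.GH IsDedekindDomain

namespace Pool.Agent.TH145.GF

/-- In a function field of a curve, a derivation that preserves the constants and kills a function
of positive order preserves the local ring. -/
theorem reg_of_pos {κ M : Type} [Field κ] [Field M] [Algebra κ M] [IsAlgClosed κ] [CharZero κ]
    [IsFF κ M] (w : Place κ M) {δ : Derivation ℤ M M} (hS : Sem κ δ) {t : M} (ht : 0 < w.ord t)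
    (hδ : δ t = 0) {f : M} (hf : Ge w 0 f) : Ge w 0 (δ f) := by
  have hcM : CharZero M := charZero_of_injective_algebraMap (algebraMap κ M).injective
  obtain ⟨τ, hτ0, hτ⟩ := w.surj
  refine reg_of_unif w hτ hS le_rfl ?_ hf
  by_contra hcon
  have h0 : δ τ ≠ 0 := fun h => hcon (Or.inl h)
  have hN : w.ord (δ τ) < 0 := by
    by_contra h
    exact hcon (Or.inr (not_lt.1 h))
  have ht0 : t ≠ 0 := by
    rintro rfl
    rw [w.ord_zero] at ht
    exact lt_irrefl _ ht
  obtain ⟨e, he⟩ : ∃ e : ℕ, (e : ℤ) = w.ord t := ⟨(w.ord t).toNat, Int.toNat_of_nonneg ht.le⟩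
  obtain ⟨v, hv⟩ : ∃ v, v = t / τ ^ e := ⟨_, rfl⟩
  have hτe : τ ^ e ≠ 0 := pow_ne_zero _ hτ0
  have hv0 : v ≠ 0 := by rw [hv]; exact div_ne_zero ht0 hτe
  have hvo : w.ord v = 0 := by
    rw [hv, w.ord_div ht0 hτe, w.ord_pow, hτ, he]
    ring
  have htv : t = τ ^ e * v := by
    rw [hv, mul_div_cancel₀ _ hτe]
  have h1 : Ge w (w.ord (δ τ)) (δ v) := reg_of_unif w hτ hS hN.le (Or.inr le_rfl) (Or.inr hvo.ge)
  have h2 : (e : M) * v * δ τ = - (τ * δ v) := by
    have h3 := hδ
    rw [htv, δ.leibniz, δ.leibniz_pow] at h3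
    simp only [smul_eq_mul, nsmul_eq_mul] at h3
    have h4 : e ≠ 0 := by
      rintro rfl
      rw [Nat.cast_zero] at he
      omega
    have h5 : τ ^ e = τ ^ (e - 1) * τ := by
      rw [← pow_succ]
      congr 1
      omega
    have h6 : τ ^ (e - 1) * ((e : M) * v * δ τ + τ * δ v) = 0 := by
      rw [h5] at h3
      linear_combination h3
    have h7 := (mul_eq_zero.1 h6).resolve_left (pow_ne_zero _ hτ0)
    linear_combination h7
  have he0 : (e : M) ≠ 0 := by
    rw [Nat.cast_ne_zero]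
    rintro rfl
    rw [Nat.cast_zero] at he
    omega
  have heo : w.ord (e : M) = 0 := by
    have := w.ord_const (c := (e : κ)) (by
      rw [Nat.cast_ne_zero]
      rintro rfl
      rw [Nat.cast_zero] at he
      omega)
    rwa [map_natCast] at this
  have h3 : Ge w (w.ord (δ τ) + 1) ((e : M) * v * δ τ) := by
    rw [h2]
    have h4 : Ge w 1 τ := Or.inr hτ.ge
    have h5 := (h4.mul h1).neg
    rwa [add_comm] at h5
  have h4 := h3.resolve_left (mul_ne_zero (mul_ne_zero he0 hv0) h0)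
  rw [w.ord_mul (mul_ne_zero he0 hv0) h0, w.ord_mul he0 hv0, heo, hvo] at h4
  omega

/-- A derivation that preserves the constants and kills a uniformizer and units with independent
residues preserves the local ring of a divisorial place. -/
theorem reg_of_kill {K L : Type} [Field K] [Field L] [Algebra K L] [CharZero K] {ι : Type}
    (P : Place K L) (u : ι → L)
    (hu : ∀ F : MvPolynomial ι K, F ≠ 0 → MvPolynomial.aeval u F ≠ 0 ∧
      P.ord (MvPolynomial.aeval u F) = 0) {π : L} (hπ : P.ord π = 1)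
    (halg : Algebra.IsAlgebraic (IntermediateField.adjoin K (insert π (Set.range u))) L)
    {D : Derivation ℤ L L} (hS : Sem K D) (hDu : ∀ i, D (u i) = 0) (hDπ : D π = 0) {f : L}
    (hf : Ge P 0 f) : Ge P 0 (D f) := by
  classical
  have hcL : CharZero L := charZero_of_injective_algebraMap (algebraMap K L).injective
  obtain ⟨Ω, _, _, _, _⟩ : ∃ (Ω : Type) (_ : Field Ω) (_ : Algebra L Ω), IsAlgClosed Ω ∧
      Algebra.IsAlgebraic L Ω := ⟨AlgebraicClosure L, inferInstance, inferInstance, inferInstance,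
        inferInstance⟩
  obtain ⟨ρ, hρ⟩ : ∃ ρ : L →+* Ω, ρ = algebraMap L Ω := ⟨_, rfl⟩
  have hcΩ : CharZero Ω := charZero_of_injective_algebraMap (algebraMap L Ω).injective
  have hπ0 : π ≠ 0 := by
    rintro rfl
    rw [P.ord_zero] at hπ
    exact absurd hπ (by norm_num)
  obtain ⟨D', hD'⟩ := exists_der_ext (Ω := Ω) D
  rw [← hρ] at hD'
  obtain ⟨V, hV, hVl⟩ := IsLocalRing.exists_factor_valuationRing (ρ.comp P.O.subtype)
  have hVm : ∀ g, P.Reg g → ρ g ∈ V := fun g hg => hV ⟨g, hg⟩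
  have hVn : ∀ g, g ≠ 0 → 0 < P.ord g → (ρ g)⁻¹ ∉ V := by
    intro g hg0 hg hmem
    have hgr : P.Reg g := Or.inr hg.le
    have h1 : IsUnit (((ρ.comp P.O.subtype).codRestrict V.toSubring hV) ⟨g, hgr⟩) := by
      refine IsUnit.of_mul_eq_one ⟨(ρ g)⁻¹, hmem⟩ ?_
      apply Subtype.ext
      change ρ g * (ρ g)⁻¹ = 1
      exact mul_inv_cancel₀ ((map_ne_zero ρ).2 hg0)
    have h2 := hVl.map_nonunit _ h1
    rw [P.isUnit_O_iff hgr] at h2
    omega
  obtain ⟨S, hSd⟩ : ∃ S : Set Ω, S = ρ '' (Set.range (algebraMap K L) ∪ Set.range u) := ⟨_, rfl⟩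
  obtain ⟨κ, hκ⟩ : ∃ κ : Subfield Ω, κ = acl S := ⟨_, rfl⟩
  have hac : IsAlgClosed κ := by rw [hκ]; exact acl_isAlgClosed S
  have hcκ : CharZero κ := charZero_of_injective_algebraMap (algebraMap ℚ κ).injective
  -- the constants are in the valuation ring
  have hcl : ∀ z ∈ Subfield.closure S, z ∈ V := by
    intro z hz
    have h1 : Subfield.closure S ≤
        (IntermediateField.adjoin K (Set.range u)).toSubfield.map ρ := by
      rw [Subfield.closure_le, hSd]
      rintro _ ⟨g, (⟨r, rfl⟩ | hg), rfl⟩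
      · exact ⟨_, (IntermediateField.adjoin K (Set.range u)).algebraMap_mem r, rfl⟩
      · exact ⟨_, IntermediateField.subset_adjoin _ _ hg, rfl⟩
    obtain ⟨g, hg, rfl⟩ := h1 hz
    apply hVm
    have h2 : g ∈ IntermediateField.adjoin K (Set.range u) := hg
    rw [IntermediateField.mem_adjoin_range_iff] at h2
    obtain ⟨a, b, rfl⟩ := h2
    by_cases ha : a = 0
    · rw [ha, map_zero, zero_div]
      exact P.reg_zero
    by_cases hb : b = 0
    · rw [hb, map_zero, div_zero]
      exact P.reg_zero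
    · right
      rw [P.ord_div (hu a ha).1 (hu b hb).1, (hu a ha).2, (hu b hb).2]
      norm_num
  have hκV : ∀ c ∈ κ, c ∈ V := by
    intro c hc
    rw [hκ, mem_acl] at hc
    obtain ⟨p, hp, hpc⟩ := hc.isIntegral
    let φ : Subfield.closure S →+* V := (Subfield.closure S).subtype.codRestrict V.toSubring
      fun z => hcl z z.2
    have h2 : IsIntegral V c := by
      refine ⟨p.map φ, hp.map _, ?_⟩
      rw [Polynomial.eval₂_map]
      exact hpc
    obtain ⟨d, hd⟩ := (IsIntegrallyClosed.isIntegral_iff (R := V) (K := Ω)).1 h2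
    rw [← hd]
    exact d.2
  have hπκ : ρ π ∉ κ := by
    intro h
    exact hVn π hπ0 (by omega) (hκV _ (inv_mem h))
  -- the function field
  obtain ⟨M, hM⟩ : ∃ M : IntermediateField κ Ω, M =
    IntermediateField.adjoin κ (insert (ρ π) (({ρ f} : Finset Ω) : Set Ω)) := ⟨_, rfl⟩
  have hfalg : IsAlgebraic (IntermediateField.adjoin κ {ρ π}) (ρ f) := by
    obtain ⟨p, hp0, hp⟩ := halg.isAlgebraic f
    have h1 : ∀ z : IntermediateField.adjoin K (insert π (Set.range u)),
        ρ z ∈ IntermediateField.adjoin κ {ρ π} := by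
      intro z
      have h2 : (IntermediateField.adjoin K (insert π (Set.range u))).toSubfield ≤
          (IntermediateField.adjoin κ {ρ π}).toSubfield.comap ρ := by
        rw [IntermediateField.adjoin_toSubfield, Subfield.closure_le]
        rintro w (⟨r, rfl⟩ | rfl | hw)
        · have h3 : ρ (algebraMap K L r) ∈ κ := by
            rw [hκ, hSd]
            exact subset_acl _ ⟨_, Or.inl ⟨r, rfl⟩, rfl⟩
          exact (IntermediateField.adjoin κ {ρ π}).algebraMap_mem ⟨_, h3⟩
        · exact IntermediateField.subset_adjoin _ _ rfl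
        · have h3 : ρ w ∈ κ := by
            rw [hκ, hSd]
            exact subset_acl _ ⟨_, Or.inr hw, rfl⟩
          exact (IntermediateField.adjoin κ {ρ π}).algebraMap_mem ⟨_, h3⟩
      exact h2 z.2
    let ψ : IntermediateField.adjoin K (insert π (Set.range u)) →+*
        IntermediateField.adjoin κ {ρ π} :=
      (ρ.comp (IntermediateField.adjoin K (insert π (Set.range u))).val.toRingHom).codRestrict
        (IntermediateField.adjoin κ {ρ π}).toSubfield h1
    refine ⟨p.map ψ, (Polynomial.map_ne_zero_iff ψ.injective).2 hp0, ?_⟩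
    have h5 := congrArg ρ hp
    rw [map_zero, Polynomial.aeval_def, Polynomial.hom_eval₂] at h5
    rw [Polynomial.aeval_def, Polynomial.eval₂_map]
    exact h5
  have hFF : IsFF κ M := by
    rw [hM]
    exact isFF_adjoin κ hac hcκ hπκ {ρ f} (by
      intro z hz
      rw [Finset.mem_singleton] at hz
      rw [hz]
      exact hfalg)
  have hπM : ρ π ∈ M := by
    rw [hM]; exact IntermediateField.subset_adjoin _ _ (Or.inl rfl)
  have hfM : ρ f ∈ M := by
    rw [hM]; exact IntermediateField.subset_adjoin _ _ (Or.inr (by simp))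
  obtain ⟨t, ht⟩ : ∃ t : M, (t : Ω) = ρ π := ⟨⟨_, hπM⟩, rfl⟩
  obtain ⟨g, hg⟩ : ∃ g : M, (g : Ω) = ρ f := ⟨⟨_, hfM⟩, rfl⟩
  obtain ⟨w, hw⟩ := place_of_val (κ := κ) (V.comap (algebraMap M Ω)) (fun c => hκV c c.2)
    (t := t) (by
      change (t : Ω) ∈ V
      rw [ht]
      exact hVm π (Or.inr (by omega))) (by
      intro h
      have h1 : ((t⁻¹ : M) : Ω) ∈ V := h
      have h2 : ((t⁻¹ : M) : Ω) = (ρ π)⁻¹ := by
        rw [← ht]
        rfl
      rw [h2] at h1
      exact hVn π hπ0 (by omega) h1)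
  have hw' : ∀ g : M, w.Reg g ↔ (g : Ω) ∈ V := hw
  -- the derivation
  have hDS : ∀ s ∈ S, D' s ∈ acl S := by
    rw [hSd]
    rintro _ ⟨z, (⟨r, rfl⟩ | ⟨i, rfl⟩), rfl⟩
    · rw [hD']
      obtain ⟨r', hr'⟩ := hS r
      rw [hr']
      exact subset_acl _ ⟨_, Or.inl ⟨r', rfl⟩, rfl⟩
    · rw [hD', hDu, map_zero]
      exact zero_mem _
  have hDκ : ∀ c ∈ κ, D' c ∈ κ := by
    intro c hc
    rw [hκ] at hc ⊢
    exact der_acl D' hDS hc
  have hD'π : D' (ρ π) = 0 := by rw [hD', hDπ, map_zero]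
  have hDM1 : ∀ z ∈ IntermediateField.adjoin κ {ρ π}, D' z ∈ IntermediateField.adjoin κ {ρ π} := by
    intro z hz
    have hz' : z ∈ Subfield.closure (Set.range (algebraMap κ Ω) ∪ {ρ π}) := by
      rw [← IntermediateField.adjoin_toSubfield]
      exact hz
    refine der_closure D' (H := (IntermediateField.adjoin κ {ρ π}).toSubfield) ?_ hz'
    rintro s (⟨c, rfl⟩ | rfl)
    · exact ⟨(IntermediateField.adjoin κ {ρ π}).algebraMap_mem c,
        (IntermediateField.adjoin κ {ρ π}).algebraMap_mem ⟨_, hDκ c c.2⟩⟩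
    · refine ⟨IntermediateField.subset_adjoin _ _ rfl, ?_⟩
      rw [hD'π]
      exact zero_mem _
  have hle : IntermediateField.adjoin κ {ρ π} ≤ M := by
    rw [hM]
    exact IntermediateField.adjoin.mono _ _ _ (by simp)
  have hD'f : D' (ρ f) ∈ M := by
    refine (isDer_top D').mem_of_alg M.toSubfield trivial hfM ?_
    refine Pool.Agent.TH145.MF.alg_mono
      (F1 := (IntermediateField.adjoin κ {ρ π}).toSubfield) ?_ hfalg
    intro z hz
    exact ⟨trivial, hle hz, hle (hDM1 z hz)⟩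
  have hDM : ∀ z ∈ M, D' z ∈ M := by
    intro z hz
    have hz' : z ∈ Subfield.closure (Set.range (algebraMap κ Ω) ∪
        insert (ρ π) (({ρ f} : Finset Ω) : Set Ω)) := by
      rw [← IntermediateField.adjoin_toSubfield, ← hM]
      exact hz
    refine der_closure D' (H := M.toSubfield) ?_ hz'
    rintro s (⟨c, rfl⟩ | rfl | hs)
    · exact ⟨M.algebraMap_mem c, M.algebraMap_mem ⟨_, hDκ c c.2⟩⟩
    · refine ⟨hπM, ?_⟩
      rw [hD'π]
      exact zero_mem _
    · rw [Finset.coe_singleton, Set.mem_singleton_iff] at hs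
      rw [hs]
      exact ⟨hfM, hD'f⟩
  obtain ⟨δ, hδ⟩ : ∃ δ : Derivation ℤ M M, ∀ z, ((δ z : M) : Ω) = D' z :=
    ⟨resDer M D' hDM, fun _ => rfl⟩
  have hSδ : Sem κ δ := fun c => ⟨⟨D' c, hDκ c c.2⟩, Subtype.ext (hδ _)⟩
  have hδt : δ t = 0 := by
    apply Subtype.ext
    rw [hδ, ht, hD'π]
    rfl
  have hwt : 0 < w.ord t := by
    have ht0 : t ≠ 0 := by
      intro h0
      rw [h0] at ht
      exact (map_ne_zero ρ).2 hπ0 ht.symm
    have h1 : w.Reg t := (hw' t).2 (by rw [ht]; exact hVm π (Or.inr (by omega)))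
    have h2 : ¬ w.Reg t⁻¹ := by
      rw [hw']
      have h2 : ((t⁻¹ : M) : Ω) = (ρ π)⁻¹ := by
        rw [← ht]
        rfl
      rw [h2]
      exact hVn π hπ0 (by omega)
    have h3 := (w.reg_iff ht0).1 h1
    rw [w.reg_iff (inv_ne_zero ht0), w.ord_inv] at h2
    omega
  have h1 : Ge w 0 (δ g) := reg_of_pos w hSδ hwt hδt ((hw' g).2 (by
    rw [hg]
    exact hVm f hf))
  have h2 : ρ (D f) ∈ V := by
    have h3 := (hw' (δ g)).1 h1
    rwa [hδ, hg, hD'] at h3
  by_contra hcon
  have hDf0 : D f ≠ 0 := fun h => hcon (Or.inl h)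
  have hneg : P.ord (D f) < 0 := by
    by_contra h
    exact hcon (Or.inr (not_lt.1 h))
  have h3 := hVn (D f)⁻¹ (inv_ne_zero hDf0) (by rw [P.ord_inv]; omega)
  rw [map_inv₀, inv_inv] at h3
  exact h3 h2

end Pool.Agent.TH145.GF
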