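import Pool.Agent.TH145.GE.CurveLin

/-!
Linear substitutions of the vertical derivations.
-/

set_option autoImplicit false

open MvPolynomial FF Pool.Agent.W603.LV Pool.Agent.W603.PV Pool.Agent.TH145.GH
open Pool.Agent.TH145.GC (Ev dF_sub dF_self ord_prod exists_minor)
open Pool.Agent.TH145.GD (Ti tv St sM sM_mem mon_step sM_zero sM_top single_mem deg_St finite_St)
open Pool.Agent.TH145.GE

namespace Pool.Agent.TH145.GF

variable {K : Type} [Field K] {n : ℕ} {A X : Type} {c0 : Fin (n + 1)} {dg : A → ℕ}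
    {D D' : A → (Fin (n + 1) →₀ ℕ) → Derivation ℤ K K} {E E' : X → Derivation ℤ K K}

open scoped Classical in
/-- A linear substitution of the vertical derivations multiplies the determinant. -/
theorem det_lin [Fintype X] {M : Matrix X X K} (hE : ∀ ξ f, E' ξ f = ∑ η, M ξ η * E η f)
    (x : Fin (n + 1) → K) {b : Finset (Ix X n A ⊕ A)} (hb : ∀ i ∈ Vert X n A, i ∈ b)
    (σ : b → Fin (n + 1)) (I : A → Fin (n + 1) →₀ ℕ) :
    (mx c0 dg D E' x I b σ).det = M.det * (mx c0 dg D E x I b σ).det := by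
  have hm : ∀ ξ : X, (Sum.inl (some (Sum.inl ξ)) : Ix X n A ⊕ A) ∈ b := fun ξ => hb _ (Or.inr ⟨ξ, rfl⟩)
  obtain ⟨v, hv⟩ : ∃ v : X → b, ∀ ξ, v ξ = ⟨Sum.inl (some (Sum.inl ξ)), hm ξ⟩ := ⟨_, fun _ => rfl⟩
  have hvi : Function.Injective v := by
    intro ξ η h
    rw [hv, hv] at h
    have h1 := congrArg Subtype.val h
    simpa using h1
  obtain ⟨p, hp⟩ : ∃ p : b → Prop, ∀ i, p i ↔ ∃ ξ, i = v ξ := ⟨_, fun _ => Iff.rfl⟩
  obtain ⟨B, hB1, hB2⟩ : ∃ B : Matrix b b K, (∀ ξ j, B (v ξ) j = ∑ η, if j = v η then M ξ η else 0) ∧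
      ∀ i j, ¬ p i → B i j = if i = j then 1 else 0 := by
    refine ⟨Matrix.of fun i j => if h : ∃ ξ, i = v ξ then
      ∑ η, (if j = v η then M h.choose η else 0) else if i = j then 1 else 0, fun ξ j => ?_,
      fun i j hi => ?_⟩
    · have h : ∃ η, v ξ = v η := ⟨ξ, rfl⟩
      rw [Matrix.of_apply, dif_pos h]
      have h1 : h.choose = ξ := (hvi h.choose_spec).symm
      rw [h1]
    · rw [Matrix.of_apply, dif_neg ((hp i).not.1 hi)]
  have h1 : mx c0 dg D E' x I b σ = B * mx c0 dg D E x I b σ := by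
    ext i j
    rw [Matrix.mul_apply]
    by_cases hi : p i
    · obtain ⟨ξ, rfl⟩ := (hp i).1 hi
      simp only [hB1, Finset.sum_mul]
      rw [Finset.sum_comm]
      have h2 : mx c0 dg D E' x I b σ (v ξ) j = E' ξ (x (σ j)) := by
        rw [hv]; rfl
      rw [h2, hE]
      refine Finset.sum_congr rfl fun η _ => ?_
      rw [Finset.sum_eq_single (v η)]
      · rw [if_pos rfl]
        congr 1
        rw [hv]; rfl
      · intro k _ hk
        rw [if_neg hk, zero_mul]
      · intro h; exact absurd (Finset.mem_univ _) h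
    · rw [Finset.sum_eq_single i]
      · rw [hB2 i i hi, if_pos rfl, one_mul]
        have hi' : ∀ ξ : X, i.1 ≠ Sum.inl (some (Sum.inl ξ)) := fun ξ h => hi ((hp i).2 ⟨ξ, by
          rw [hv]; exact Subtype.ext h⟩)
        obtain ⟨i, hib⟩ := i
        rcases i with (_ | ξ | t) | a
        · rfl
        · exact absurd rfl (hi' ξ)
        · rfl
        · rfl
      · intro k _ hk
        rw [hB2 i k hi, if_neg (Ne.symm hk), zero_mul]
      · intro h; exact absurd (Finset.mem_univ _) h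
  rw [h1, Matrix.det_mul]
  congr 1
  rw [Matrix.twoBlockTriangular_det B p (fun i hi j hj => by
    rw [hB2 i j hi, if_neg]
    rintro rfl
    exact hi hj)]
  have h2 : (B.toSquareBlockProp fun i => ¬ p i) = 1 := by
    ext i j
    rw [Matrix.toSquareBlockProp, Matrix.toBlock_apply, hB2 _ _ i.2, Matrix.one_apply]
    by_cases h : i = j
    · rw [if_pos h, if_pos (by rw [h])]
    · rw [if_neg h, if_neg fun h' => h (Subtype.ext h')]
  rw [h2, Matrix.det_one, mul_one]
  obtain ⟨e, he⟩ : ∃ e : X ≃ {i // p i}, ∀ ξ, (e ξ : b) = v ξ :=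
    ⟨Equiv.ofBijective (fun ξ => ⟨v ξ, (hp _).2 ⟨ξ, rfl⟩⟩) ⟨fun ξ η h =>
      hvi (congrArg Subtype.val h), fun ⟨i, hi⟩ => by
        obtain ⟨ξ, rfl⟩ := (hp i).1 hi
        exact ⟨ξ, rfl⟩⟩, fun _ => rfl⟩
  rw [← Matrix.det_submatrix_equiv_self e]
  congr 1
  ext ξ η
  rw [Matrix.submatrix_apply, Matrix.toSquareBlockProp, Matrix.toBlock_apply, he, he, hB1,
    Finset.sum_eq_single η]
  · rw [if_pos rfl]
  · intro k _ hk
    rw [if_neg fun h => hk (hvi h).symm]
  · intro h; exact absurd (Finset.mem_univ _) h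

theorem full_le_gen {x : Fin (n + 1) → K}
    (hD : ∀ a I, I ∈ St c0 (dg a) → Ev D' x a I ∈ Full c0 dg D E x)
    (hE : ∀ ξ, ev (E' ξ) x ∈ Full c0 dg D E x) :
    Full c0 dg D' E' x ≤ Full c0 dg D E x := by
  rw [Full, Submodule.span_le]
  rintro _ (⟨o, rfl⟩ | ⟨a, I, hI, rfl⟩)
  · rcases o with _ | ξ | t
    · exact wv_mem_full x none
    · exact hE ξ
    · change tv c0 dg D' x t ∈ Full c0 dg D E x
      rw [tv]
      split_ifs with ht
      · exact sub_mem (Submodule.smul_mem _ _ (hD _ _ (sM_mem (by omega))))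
          (Submodule.smul_mem _ _ (hD _ _ (sM_mem (by omega))))
      · exact zero_mem _
  · exact hD a I hI

end Pool.Agent.TH145.GF
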