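import Pool.Agent.TH145.GF.Lin
import Pool.Agent.TH145.GF.Div

/-!
The order of the determinant at a divisorial place.
-/

set_option autoImplicit false

open MvPolynomial FF Pool.Agent.W603.LV Pool.Agent.W603.PV Pool.Agent.TH145.GH
open Pool.Agent.TH145.GC (Ev dF_sub dF_self ord_prod exists_minor)
open Pool.Agent.TH145.GD (Ti tv St sM sM_mem mon_step sM_zero sM_top single_mem deg_St finite_St)
open Pool.Agent.TH145.GE Pool.Agent.W602.GT

namespace Pool.Agent.TH145.GF

variable {K L : Type} [Field K] [Field L] [Algebra K L] [CharZero K] {n w : ℕ} {A : Type}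
  {c0 : Fin (n + 1)} {F : A → MvPolynomial (Fin (n + 1)) L} {dg : A → ℕ}
  {D : A → (Fin (n + 1) →₀ ℕ) → Derivation ℤ L L} {ε : A → (Fin (n + 1) →₀ ℕ) → ℕ}

/-- The vertical derivations. -/
abbrev vE (E : Fin w → Derivation K L L) : Fin w → Derivation ℤ L L := fun i =>
  (E i).restrictScalars ℤ

omit [CharZero K] in
/-- The determinant does not depend on the instance of `DecidableEq`. -/
theorem det_dec {ι R : Type} [Fintype ι] [CommRing R] (i1 i2 : DecidableEq ι) (M : Matrix ι ι R) :
    @Matrix.det ι i1 _ R _ M = @Matrix.det ι i2 _ R _ M := by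
  rw [Subsingleton.elim i1 i2]

omit [CharZero K] in
theorem der_comb [CharZero K] {t : Fin w → L} (ht : IsTranscendenceBasis K t)
    {E : Fin w → Derivation K L L} (hE : ∀ i j, E i (t j) = if i = j then 1 else 0)
    (ξ : Derivation K L L) (f : L) : ξ f = ∑ j, ξ (t j) * E j f := by
  have h1 : ξ = ∑ j, ξ (t j) • E j := by
    refine der_ext t ht fun i => ?_
    rw [← Derivation.coeFnAddMonoidHom_apply (D := ∑ j, ξ (t j) • E j), map_sum, Finset.sum_apply,
      Finset.sum_eq_single i]
    · rw [Derivation.coeFnAddMonoidHom_apply, Derivation.smul_apply, hE, if_pos rfl, smul_eq_mul,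
        mul_one]
    · intro j _ hj
      rw [Derivation.coeFnAddMonoidHom_apply, Derivation.smul_apply, hE, if_neg hj, smul_zero]
    · intro h; exact absurd (Finset.mem_univ _) h
  conv_lhs => rw [h1]
  rw [← Derivation.coeFnAddMonoidHom_apply, map_sum, Finset.sum_apply]
  rfl

open scoped Classical in
/-- The order of the determinant at a scaled point. -/
theorem ord_det_local (hF : ∀ a, (F a).IsHomogeneous (dg a)) (hD : DualE c0 F dg D ε) [Fintype A]
    (hw : 0 < w) (htr : Algebra.trdeg K L = w) {P : Place K L} (hP : Divisorial w P)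
    (hS : ∀ a I, Sem K (D a I)) {t : Fin w → L} (ht : IsTranscendenceBasis K t)
    {E : Fin w → Derivation K L L} (hEt : ∀ i j, E i (t j) = if i = j then 1 else 0)
    (hFK : ∀ (δ : Derivation K L L) a u, δ ((F a).coeff u) = 0) {Dd : Fin w → Derivation K L L}
    (hM : (Matrix.of fun i j => Dd i (t j)).det ≠ 0)
    {x : Fin (n + 1) → L} (hx : ∀ l, Ge P 0 (x l)) {e1 : Fin (n + 1)} (he1 : x e1 = 1)
    {b : Finset (Ix (Fin w) n A ⊕ A)} (hb : ∀ i ∈ Vert (Fin w) n A, i ∈ b) (σ : b → Fin (n + 1))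
    (hcard : Module.finrank L (Full c0 dg D (vE E) x) = b.card)
    (hdet : (mx c0 dg D (vE E) x (fun a => Finsupp.single e1 (dg a)) b σ).det ≠ 0)
    (hG : ∀ a, Sum.inr a ∉ b → eval x (F a) ≠ 0) (hE : ∀ i l, Ge P 0 (Dd i (x l)))
    (hEF : ∀ i a, Sum.inr a ∉ b → 0 < P.ord (eval x (F a)) →
      Ge P (P.ord (eval x (F a))) (Dd i (eval x (F a)))) :
    (∑ a ∈ Finset.univ.filter (fun a => Sum.inr a ∉ b), P.ord (eval x (F a))) ≤
      P.ord (Matrix.of fun i j => Dd i (t j)).det +
        P.ord (mx c0 dg D (vE E) x (fun a => Finsupp.single e1 (dg a)) b σ).det := by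
  obtain ⟨M, hMd⟩ : ∃ M : Matrix (Fin w) (Fin w) L, M = Matrix.of fun i j => Dd i (t j) := ⟨_, rfl⟩
  rw [← hMd] at hM ⊢
  have hDdE : ∀ i f, Dd i f = ∑ j, M i j * E j f := fun i f => by
    rw [der_comb ht hEt (Dd i) f, hMd]
    rfl
  have hMu : IsUnit M.det := isUnit_iff_ne_zero.2 hM
  have hEDd : ∀ i f, E i f = ∑ j, M⁻¹ i j * Dd j f := fun i f => by
    have h1 : (fun j => Dd j f) = M.mulVec fun j => E j f := by
      funext j
      rw [hDdE]
      rfl
    have h3 : ∑ j, M⁻¹ i j * Dd j f = M⁻¹.mulVec (fun j => Dd j f) i := rfl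
    rw [h3, h1, Matrix.mulVec_mulVec, Matrix.nonsing_inv_mul _ hMu, Matrix.one_mulVec]
  choose ξ hξ using fun a I => exists_lift hw htr hP (hS a I)
  obtain ⟨D', hD'⟩ : ∃ D' : A → (Fin (n + 1) →₀ ℕ) → Derivation ℤ L L, ∀ a I f,
    D' a I f = D a I f - ξ a I f :=
    ⟨fun a I => D a I - (ξ a I).restrictScalars ℤ, fun a I f => by simp⟩
  have hPres : Pres P c0 dg D' := fun f hf a I _ => by
    rw [hD']
    exact hξ a I f hf
  have hD'E : ∀ a I f, D' a I f = D a I f + ∑ j, (-(ξ a I (t j))) * vE E j f := fun a I f => by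
    rw [hD', der_comb ht hEt (ξ a I) f, sub_eq_add_neg, ← Finset.sum_neg_distrib]
    congr 1
    exact Finset.sum_congr rfl fun j _ => (neg_mul _ _).symm
  have h1 := det_add_vert (c0 := c0) (dg := dg) (D := D) (D' := D') (E := vE E)
    (κ := fun a I j => -(ξ a I (t j))) hD'E (x := x) hb σ (fun a => Finsupp.single e1 (dg a))
  have h2 : (mx c0 dg D' (vE Dd) x (fun a => Finsupp.single e1 (dg a)) b σ).det =
      M.det * (mx c0 dg D' (vE E) x (fun a => Finsupp.single e1 (dg a)) b σ).det := by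
    have := det_lin (c0 := c0) (dg := dg) (D := D') (E := vE E) (E' := vE Dd) (M := M)
      (fun i f => hDdE i f) x hb σ (fun a => Finsupp.single e1 (dg a))
    exact (det_dec _ _ _).trans (this.trans (congrArg₂ (· * ·) (det_dec _ _ _) (det_dec _ _ _)))
  rw [h1] at h2
  have hEv : ∀ (D1 D2 : A → (Fin (n + 1) →₀ ℕ) → Derivation ℤ L L)
      (c : A → (Fin (n + 1) →₀ ℕ) → Fin w → L) (E1 : Fin w → Derivation K L L),
      (∀ a I f, D1 a I f = D2 a I f + ∑ j, c a I j * E1 j f) → ∀ a I,
      Ev D1 x a I = Ev D2 x a I + ∑ j, c a I j • ev (vE E1 j) x := by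
    intro D1 D2 c E1 h a I
    funext l
    rw [Pi.add_apply, Finset.sum_apply]
    exact h a I (x l)
  have hev : ∀ (E1 E2 : Fin w → Derivation K L L) (M : Matrix (Fin w) (Fin w) L),
      (∀ i f, E1 i f = ∑ j, M i j * E2 j f) → ∀ i, ev (vE E1 i) x = ∑ j, M i j • ev (vE E2 j) x := by
    intro E1 E2 M h i
    funext l
    rw [Finset.sum_apply]
    exact h i (x l)
  have hfull : Full c0 dg D' (vE Dd) x = Full c0 dg D (vE E) x := by
    apply le_antisymm
    · refine full_le_gen (fun a I hI => ?_) fun i => ?_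
      · rw [hEv D' D (fun a I j => -(ξ a I (t j))) E hD'E]
        exact add_mem (Ev_mem_full x hI) (sum_mem fun j _ => Submodule.smul_mem _ _
          (wv_mem_full x (some (Sum.inl j))))
      · rw [hev Dd E M hDdE]
        exact sum_mem fun j _ => Submodule.smul_mem _ _ (wv_mem_full x (some (Sum.inl j)))
    · have h3 : ∀ i, ev (vE E i) x ∈ Full c0 dg D' (vE Dd) x := fun i => by
        rw [hev E Dd M⁻¹ hEDd]
        exact sum_mem fun j _ => Submodule.smul_mem _ _ (wv_mem_full x (some (Sum.inl j)))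
      refine full_le_gen (fun a I hI => ?_) h3
      rw [hEv D D' (fun a I j => ξ a I (t j)) E (fun a I f => by
        rw [hD', ← der_comb ht hEt (ξ a I) f]
        ring)]
      exact add_mem (Ev_mem_full x hI) (sum_mem fun j _ => Submodule.smul_mem _ _ (h3 j))
  have hDual : DualE c0 F dg D' ε := by
    intro a c I hI z
    have h4 := hD a c I hI z
    rw [← h4]
    refine Finset.sum_congr rfl fun v _ => ?_
    rw [hD', hFK, sub_zero]
  have hdet' : (mx c0 dg D' (vE Dd) x (fun a => Finsupp.single e1 (dg a)) b σ).det ≠ 0 := by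
    rw [h2]
    exact mul_ne_zero hM hdet
  have h4 := ord_det hF hDual hPres hx he1 (E := vE Dd) σ (by rw [hfull, hcard]) hdet' hG
    (fun i l => hE i l) (fun i a ha hpos => by
      rw [dF_ev (fun v => hFK (Dd i) a v)]
      exact hEF i a ha hpos)
  rw [h2, P.ord_mul hM hdet] at h4
  exact h4

end Pool.Agent.TH145.GF
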